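import Mathlib

/-!
Definitions for the second main theorem with truncation level one.
-/

open Filter Topology MvPolynomial

namespace Pool.Agent.Lib.GGL.SM

/-- The height (characteristic) `T(r)` of the curve with reduced representation `Y`. -/
noncomputable def height {M : ℕ} (Y : ℂ → Fin (M + 1) → ℂ) (r : ℝ) : ℝ :=
  Real.circleAverage (fun z => Real.log ‖Y z‖) 0 r

/-- The counting function of the zeros of `h`, each zero counted once. -/
noncomputable def count1 (h : ℂ → ℂ) (r : ℝ) : ℝ :=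
  (∑ᶠ z ∈ {z : ℂ | h z = 0 ∧ z ≠ 0 ∧ ‖z‖ ≤ r}, Real.log (r / ‖z‖)) +
    (open Classical in if h 0 = 0 then Real.log r else 0)

/-- The number of zeros in the closed disc, with multiplicities. -/
noncomputable def zc (A : ℂ → ℂ) (ρ : ℝ) : ℝ :=
  ∑ᶠ a ∈ Metric.closedBall (0 : ℂ) ρ, (analyticOrderNatAt A a : ℝ)

/-- The coefficient of `(t - b) ^ f` in a polynomial `∑ e, c e * l ^ (K - e) * t ^ e`, in the
first variable. -/
def tayL {A : Type*} [CommRing A] {q K : ℕ} (l b : A) (f : ℕ)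
    (c : (Fin (q + 1) → Fin (K + 1)) → A) : (Fin q → Fin (K + 1)) → A := fun γ =>
  ∑ e : Fin (K + 1), c (Fin.cons e γ) * (((e : ℕ).choose f : ℕ) : A) * b ^ ((e : ℕ) - f) *
    l ^ (K - (e : ℕ))

/-- All Taylor coefficients that are lexicographically below `g` vanish. -/
def GoodL {A : Type*} [CommRing A] {K : ℕ} : (q : ℕ) → (g : Fin q → ℕ) → (l b : Fin q → A) →
    ((Fin q → Fin (K + 1)) → A) → Prop
  | 0, _, _, _, _ => True
  | q + 1, g, l, b, c => (∀ f < g 0, ∀ γ, tayL (l 0) (b 0) f c γ = 0) ∧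
      GoodL q (Fin.tail g) (Fin.tail l) (Fin.tail b) (tayL (l 0) (b 0) (g 0) c)

/-- The Taylor coefficient with exponent `g`. -/
def leadL {A : Type*} [CommRing A] {q K : ℕ} (g : Fin q → ℕ) (l b : Fin q → A)
    (c : (Fin q → Fin (K + 1)) → A) : A :=
  ∑ γ, c γ * ∏ j, ((((γ j : ℕ).choose (g j) : ℕ) : A) * b j ^ ((γ j : ℕ) - g j) *
    l j ^ (K - (γ j : ℕ)))

end Pool.Agent.Lib.GGL.SM
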