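import Mathlib
import Pool.Agent.Lib.MP_8d161d_ag.SM.Defs

/-!
Monotonicity of circle averages.
-/

open Filter Topology MvPolynomial Module

namespace Pool.Agent.Lib.GGL.SM

/-- Monotonicity of circle averages for functions that are only comparable outside a discrete
set. -/
theorem circleAverage_mono_ae {f g : ℂ → ℝ} {r : ℝ} (hr : 0 < r) (hf : CircleIntegrable f 0 r)
    (hg : CircleIntegrable g 0 r) {S : Set ℂ} (hS : ∀ z₁, ∀ᶠ z in 𝓝[≠] z₁, z ∉ S)
    (h : ∀ z, ‖z‖ = r → z ∉ S → f z ≤ g z) :
    Real.circleAverage f 0 r ≤ Real.circleAverage g 0 r := by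
  have h1 : {z | f z ≤ g z} ∈ codiscreteWithin (Metric.sphere (0 : ℂ) |r|) := by
    rw [mem_codiscreteWithin]
    intro x _
    rw [Filter.disjoint_principal_right]
    filter_upwards [hS x] with z hz
    simp only [Set.mem_compl_iff, Set.mem_sdiff, not_and, not_not]
    intro hzs
    rw [Set.mem_ofPred_eq]
    refine h z ?_ hz
    rw [mem_sphere_zero_iff_norm] at hzs
    rw [hzs, abs_of_pos hr]
  have h2 := circleMap_preimage_codiscrete (c := (0 : ℂ)) (R := r) hr.ne' h1
  unfold Real.circleAverage
  rw [smul_eq_mul, smul_eq_mul]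
  refine mul_le_mul_of_nonneg_left ?_ (by positivity)
  refine intervalIntegral.integral_mono_ae_restrict Real.two_pi_pos.le hf hg ?_
  apply ae_restrict_le_codiscreteWithin measurableSet_Icc
  exact codiscreteWithin_mono (by tauto) h2

end Pool.Agent.Lib.GGL.SM
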