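import Mathlib
import Pool.Agent.Lib.MP_8d161d_ag.SM.Defs

/-!
The number of zeros in a disc.
-/

open Filter Topology MeasureTheory

namespace Pool.Agent.Lib.GGL.SM

theorem e4_order_ne_top {A : ℂ → ℂ} (hA : Differentiable ℂ A) (hne : ∃ z, A z ≠ 0) (z : ℂ) :
    analyticOrderAt A z ≠ ⊤ := by
  intro h
  rw [analyticOrderAt_eq_top] at h
  obtain ⟨w, hw⟩ := hne
  have h1 : AnalyticOnNhd ℂ A Set.univ := fun x _ => hA.analyticAt x
  have h2 : A =ᶠ[𝓝 z] (fun _ => 0) := h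
  have h3 := h1.eq_of_eventuallyEq (g := fun _ => 0) (fun x _ => analyticAt_const) h2
  exact hw (congrFun h3 w)

theorem e4_div {A : ℂ → ℂ} (hA : Differentiable ℂ A) (hne : ∃ z, A z ≠ 0) (t : ℝ) {u : ℂ}
    (hu : u ∈ Metric.closedBall (0 : ℂ) t) :
    MeromorphicOn.divisor A (Metric.closedBall 0 t) u = (analyticOrderNatAt A u : ℤ) := by
  have h1 : AnalyticOnNhd ℂ A (Metric.closedBall 0 t) := fun x _ => hA.analyticAt x
  rw [MeromorphicOn.AnalyticOnNhd.divisor_apply h1 hu, ← Nat.cast_analyticOrderNatAt (e4_order_ne_top hA hne u)]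
  rfl

theorem e4_order_pos {A : ℂ → ℂ} (hA : Differentiable ℂ A) (hne : ∃ z, A z ≠ 0) {u : ℂ}
    (hu : A u = 0) : 1 ≤ analyticOrderNatAt A u := by
  rw [Nat.one_le_iff_ne_zero]
  intro h
  have h1 := Nat.cast_analyticOrderNatAt (e4_order_ne_top hA hne u)
  rw [h] at h1
  have h2 : analyticOrderAt A u = 0 := by
    rw [← h1]
    rfl
  rw [analyticOrderAt_eq_zero] at h2
  rcases h2 with h3 | h3
  · exact h3 (hA.analyticAt u)
  · exact h3 hu

theorem zeros_finite {A : ℂ → ℂ} (hA : Differentiable ℂ A) (hne : ∃ z, A z ≠ 0) (t : ℝ) :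
    ({z | A z = 0} ∩ Metric.closedBall 0 t).Finite := by
  have h1 := (MeromorphicOn.divisor A (Metric.closedBall (0 : ℂ) t)).finiteSupport
    (isCompact_closedBall 0 t)
  refine Set.Finite.subset h1 ?_
  rintro z ⟨hz, hzt⟩
  rw [Function.mem_support, e4_div hA hne t hzt]
  have h2 := e4_order_pos hA hne hz
  have h3 : analyticOrderNatAt A z ≠ 0 := by omega
  exact_mod_cast h3

theorem e4_zc {A : ℂ → ℂ} (hA : Differentiable ℂ A) (hne : ∃ z, A z ≠ 0) (t : ℝ) :
    zc A t = ∑ a ∈ (zeros_finite hA hne t).toFinset, (analyticOrderNatAt A a : ℝ) := by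
  unfold zc
  refine finsum_mem_eq_sum_of_inter_support_eq _ ?_
  ext a
  constructor
  · rintro ⟨h1, h2⟩
    refine ⟨?_, h2⟩
    rw [Set.Finite.coe_toFinset]
    refine ⟨?_, h1⟩
    rw [Function.mem_support] at h2
    exact apply_eq_zero_of_analyticOrderNatAt_ne_zero fun h3 => h2 (by rw [h3]; norm_num)
  · rintro ⟨h1, h2⟩
    rw [Set.Finite.coe_toFinset] at h1
    exact ⟨h1.2, h2⟩

theorem ncard_le_zc {A : ℂ → ℂ} (hA : Differentiable ℂ A) (hne : ∃ z, A z ≠ 0) (t : ℝ) :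
    ((({z | A z = 0} ∩ Metric.closedBall 0 t).ncard : ℕ) : ℝ) ≤ zc A t := by
  rw [e4_zc hA hne, Set.ncard_eq_toFinset_card _ (zeros_finite hA hne t), Finset.card_eq_sum_ones,
    Nat.cast_sum]
  refine Finset.sum_le_sum fun a ha => ?_
  rw [Set.Finite.mem_toFinset] at ha
  exact_mod_cast e4_order_pos hA hne ha.1

/-- Jensen's formula as a finite sum. -/
theorem e4_jensen {A : ℂ → ℂ} (hA : Differentiable ℂ A) (hne : ∃ z, A z ≠ 0) {ρ : ℝ}
    (hρ : 1 ≤ ρ) :
    Real.circleAverage (fun z => Real.log ‖A z‖) 0 ρ =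
      ∑ u ∈ (zeros_finite hA hne ρ).toFinset,
        (analyticOrderNatAt A u : ℝ) * (if u = 0 then Real.log ρ else Real.log (ρ / ‖u‖)) +
      Real.log ‖meromorphicTrailingCoeffAt A 0‖ := by
  classical
  have h0 : 0 < ρ := zero_lt_one.trans_le hρ
  have hmem : (0 : ℂ) ∈ Metric.closedBall (0 : ℂ) ρ := Metric.mem_closedBall_self h0.le
  have hmer : MeromorphicOn A (Metric.closedBall 0 |ρ|) := fun x _ =>
    (hA.analyticAt x).meromorphicAt
  have h1 := MeromorphicOn.circleAverage_log_norm h0.ne' hmer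
  rw [abs_of_pos h0, e4_div hA hne ρ hmem] at h1
  have h2 : ∑ᶠ u, (MeromorphicOn.divisor A (Metric.closedBall 0 ρ) u : ℝ) *
      Real.log (ρ * ‖0 - u‖⁻¹) = ∑ u ∈ (zeros_finite hA hne ρ).toFinset,
        (analyticOrderNatAt A u : ℝ) * Real.log (ρ * ‖u‖⁻¹) := by
    rw [finsum_eq_sum_of_support_subset (s := (zeros_finite hA hne ρ).toFinset)]
    · refine Finset.sum_congr rfl fun u hu => ?_
      rw [Set.Finite.mem_toFinset] at hu
      rw [e4_div hA hne ρ hu.2, zero_sub, norm_neg]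
      norm_cast
    · intro u hu
      rw [Function.mem_support] at hu
      have h3 := left_ne_zero_of_mul hu
      have h4 : MeromorphicOn.divisor A (Metric.closedBall 0 ρ) u ≠ 0 := by exact_mod_cast h3
      have h5 : u ∈ Metric.closedBall (0 : ℂ) ρ :=
        (MeromorphicOn.divisor A (Metric.closedBall 0 ρ)).supportWithinDomain h4
      rw [e4_div hA hne ρ h5] at h4
      rw [Set.Finite.coe_toFinset]
      exact ⟨apply_eq_zero_of_analyticOrderNatAt_ne_zero (by exact_mod_cast h4), h5⟩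
  rw [h2] at h1
  have h6 : ((analyticOrderNatAt A 0 : ℕ) : ℝ) * Real.log ρ =
      ∑ u ∈ (zeros_finite hA hne ρ).toFinset,
        if u = 0 then (analyticOrderNatAt A u : ℝ) * Real.log ρ else 0 := by
    by_cases h7 : A 0 = 0
    · rw [Finset.sum_eq_single 0]
      · rw [if_pos rfl]
      · intro b _ hb
        rw [if_neg hb]
      · intro h8
        exact absurd ((Set.Finite.mem_toFinset (zeros_finite hA hne ρ)).2 ⟨h7, hmem⟩) h8
    · have h8 : analyticOrderNatAt A 0 = 0 := by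
        by_contra h9
        exact h7 (apply_eq_zero_of_analyticOrderNatAt_ne_zero h9)
      rw [h8, Finset.sum_eq_zero]
      · simp
      · intro u hu
        rw [Set.Finite.mem_toFinset] at hu
        rw [if_neg]
        rintro rfl
        exact h7 hu.1
  have h7 : Real.circleAverage (fun z => Real.log ‖A z‖) 0 ρ =
      ∑ u ∈ (zeros_finite hA hne ρ).toFinset, (analyticOrderNatAt A u : ℝ) *
        Real.log (ρ * ‖u‖⁻¹) + ((analyticOrderNatAt A 0 : ℕ) : ℝ) * Real.log ρ +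
      Real.log ‖meromorphicTrailingCoeffAt A 0‖ := by
    refine h1.trans ?_
    norm_cast
  rw [h7, h6, ← Finset.sum_add_distrib]
  congr 1
  refine Finset.sum_congr rfl fun u _ => ?_
  by_cases hu : u = 0
  · rw [if_pos hu, if_pos hu, hu]
    simp
  · rw [if_neg hu, if_neg hu, div_eq_mul_inv]
    ring

theorem e4_term_nonneg {ρ : ℝ} (hρ : 1 ≤ ρ) {u : ℂ} (hu : ‖u‖ ≤ ρ) :
    0 ≤ (open Classical in if u = 0 then Real.log ρ else Real.log (ρ / ‖u‖)) := by
  split_ifs with h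
  · exact Real.log_nonneg hρ
  · refine Real.log_nonneg ?_
    rw [le_div_iff₀ (norm_pos_iff.2 h), one_mul]
    exact hu

theorem average_ge {A : ℂ → ℂ} (hA : Differentiable ℂ A) (hne : ∃ z, A z ≠ 0) :
    ∃ C : ℝ, ∀ ρ : ℝ, 1 ≤ ρ → -C ≤ Real.circleAverage (fun z => Real.log ‖A z‖) 0 ρ := by
  classical
  refine ⟨-Real.log ‖meromorphicTrailingCoeffAt A 0‖, fun ρ hρ => ?_⟩
  rw [e4_jensen hA hne hρ, neg_neg]
  refine le_add_of_nonneg_left (Finset.sum_nonneg fun u hu => ?_)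
  rw [Set.Finite.mem_toFinset] at hu
  have h1 : ‖u‖ ≤ ρ := by simpa using hu.2
  refine mul_nonneg (Nat.cast_nonneg _) ?_
  have := e4_term_nonneg hρ h1
  convert this

theorem zc_bound {A : ℂ → ℂ} (hA : Differentiable ℂ A) (hne : ∃ z, A z ≠ 0) :
    ∃ C : ℝ, ∀ ρ ρ' : ℝ, 1 ≤ ρ → ρ < ρ' →
      zc A ρ * Real.log (ρ' / ρ) ≤ Real.circleAverage (fun z => Real.log ‖A z‖) 0 ρ' + C := by
  classical
  refine ⟨-Real.log ‖meromorphicTrailingCoeffAt A 0‖, fun ρ ρ' hρ hρρ' => ?_⟩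
  have h0 : 0 < ρ := zero_lt_one.trans_le hρ
  have hρ' : 1 ≤ ρ' := hρ.trans hρρ'.le
  have h0' : 0 < ρ' := zero_lt_one.trans_le hρ'
  rw [e4_jensen hA hne hρ', add_neg_cancel_right, e4_zc hA hne, Finset.sum_mul]
  have hsub : (zeros_finite hA hne ρ).toFinset ⊆ (zeros_finite hA hne ρ').toFinset := by
    intro u hu
    rw [Set.Finite.mem_toFinset] at hu ⊢
    exact ⟨hu.1, Metric.closedBall_subset_closedBall hρρ'.le hu.2⟩
  refine le_trans (Finset.sum_le_sum fun u hu => ?_)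
    (Finset.sum_le_sum_of_subset_of_nonneg hsub fun u hu _ => ?_)
  · rw [Set.Finite.mem_toFinset] at hu
    have h1 : ‖u‖ ≤ ρ := by simpa using hu.2
    refine mul_le_mul_of_nonneg_left ?_ (Nat.cast_nonneg _)
    split_ifs with h
    · exact Real.log_le_log (div_pos h0' h0) (div_le_self h0'.le hρ)
    · have h2 : 0 < ‖u‖ := norm_pos_iff.2 h
      exact Real.log_le_log (div_pos h0' h0) (div_le_div_of_nonneg_left h0'.le h2 h1)
  · rw [Set.Finite.mem_toFinset] at hu
    have h1 : ‖u‖ ≤ ρ' := by simpa using hu.2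
    refine mul_nonneg (Nat.cast_nonneg _) ?_
    have := e4_term_nonneg hρ' h1
    convert this

end Pool.Agent.Lib.GGL.SM
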