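import Mathlib
import Pool.Agent.Lib.MP_8d161d_ag.SM.E4
import Pool.Agent.Lib.MP_8d161d_ag.SM.B9a

/-!
Truncated counting functions and tangency.
-/

open Filter Topology MvPolynomial Module

namespace Pool.Agent.Lib.GGL.SM

open Classical in
/-- weight of a zero in the counting function -/
noncomputable def c3a_L (r : ℝ) (u : ℂ) : ℝ := if u = 0 then Real.log r else Real.log (r / ‖u‖)

theorem c3a_L_nonneg {r : ℝ} (hr : 1 ≤ r) {u : ℂ} (hu : ‖u‖ ≤ r) : 0 ≤ c3a_L r u := by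
  unfold c3a_L
  split_ifs with h
  · exact Real.log_nonneg hr
  · refine Real.log_nonneg ?_
    rw [le_div_iff₀ (norm_pos_iff.2 h), one_mul]
    exact hu

theorem c3a_count1 {A : ℂ → ℂ} (hA : Differentiable ℂ A) (hne : ∃ z, A z ≠ 0) {r : ℝ}
    (hr : 1 ≤ r) : count1 A r = ∑ u ∈ (zeros_finite hA hne r).toFinset, c3a_L r u := by
  classical
  set T := (zeros_finite hA hne r).toFinset with hT
  have hmem : ∀ u, u ∈ T ↔ A u = 0 ∧ ‖u‖ ≤ r := by
    intro u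
    rw [hT, Set.Finite.mem_toFinset]
    constructor
    · rintro ⟨h1, h2⟩
      exact ⟨h1, mem_closedBall_zero_iff.1 h2⟩
    · rintro ⟨h1, h2⟩
      exact ⟨h1, mem_closedBall_zero_iff.2 h2⟩
  unfold count1
  have h1 : {z : ℂ | A z = 0 ∧ z ≠ 0 ∧ ‖z‖ ≤ r} = ↑(T.filter (· ≠ 0)) := by
    ext u
    rw [Finset.coe_filter]
    show (A u = 0 ∧ u ≠ 0 ∧ ‖u‖ ≤ r) ↔ (u ∈ T ∧ u ≠ 0)
    rw [hmem]
    tauto
  rw [h1, finsum_mem_coe_finset]
  rw [← Finset.sum_filter_add_sum_filter_not T (· ≠ 0)]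
  congr 1
  · refine Finset.sum_congr rfl fun u hu => ?_
    rw [Finset.mem_filter] at hu
    rw [c3a_L, if_neg hu.2]
  · by_cases h0 : A 0 = 0
    · have h2 : T.filter (fun u => ¬ u ≠ 0) = {0} := by
        ext u
        rw [Finset.mem_filter, Finset.mem_singleton, hmem]
        constructor
        · rintro ⟨_, h⟩
          exact not_not.1 h
        · rintro rfl
          exact ⟨⟨h0, by simpa using zero_le_one.trans hr⟩, fun h => h rfl⟩
      rw [h2, Finset.sum_singleton, if_pos h0, c3a_L, if_pos rfl]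
    · have h2 : T.filter (fun u => ¬ u ≠ 0) = ∅ := by
        rw [Finset.filter_eq_empty_iff]
        intro u hu h
        rw [not_not] at h
        subst h
        exact h0 ((hmem 0).1 hu).1
      rw [h2, Finset.sum_empty, if_neg h0]

theorem c3a_average_le {M : ℕ} {q : Fin (M + 1) → ℂ} {Y : ℂ → Fin (M + 1) → ℂ}
    (hY : Differentiable ℂ Y) (h0 : ∀ z, Y z ≠ 0) (hA : Differentiable ℂ fun z => q ⬝ᵥ Y z)
    (hne : ∃ z, q ⬝ᵥ Y z ≠ 0) :
    ∃ C : ℝ, ∀ r : ℝ, 1 ≤ r →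
      Real.circleAverage (fun z => Real.log ‖q ⬝ᵥ Y z‖) 0 r ≤ height Y r + C := by
  set P : ℝ := ∑ i, ‖q i‖ with hP
  have hle : ∀ z, ‖q ⬝ᵥ Y z‖ ≤ ‖Y z‖ * P := by
    intro z
    calc ‖q ⬝ᵥ Y z‖ ≤ ∑ i, ‖q i * Y z i‖ := norm_sum_le _ _
      _ ≤ ∑ i, ‖q i‖ * ‖Y z‖ := by
          refine Finset.sum_le_sum fun i _ => ?_
          rw [norm_mul]
          exact mul_le_mul_of_nonneg_left (norm_le_pi_norm (Y z) i) (norm_nonneg _)
      _ = ‖Y z‖ * P := by rw [← Finset.sum_mul, mul_comm]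
  have hPpos : 0 < P := by
    obtain ⟨z, hz⟩ := hne
    have h1 : 0 < ‖Y z‖ * P := (norm_pos_iff.2 hz).trans_le (hle z)
    exact pos_of_mul_pos_right h1 (norm_nonneg _)
  refine ⟨Real.log P, fun r hr => ?_⟩
  have hr0 : 0 < r := zero_lt_one.trans_le hr
  have hcont : Continuous fun z : ℂ => Real.log ‖Y z‖ :=
    Continuous.log hY.continuous.norm fun z => (norm_pos_iff.2 (h0 _)).ne'
  have hint1 : CircleIntegrable (fun z : ℂ => Real.log ‖Y z‖) 0 r :=
    hcont.continuousOn.circleIntegrable hr0.le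
  have hint2 : CircleIntegrable (fun _ : ℂ => Real.log P) 0 r :=
    continuousOn_const.circleIntegrable hr0.le
  have hint3 : CircleIntegrable (fun z => Real.log ‖q ⬝ᵥ Y z‖) 0 r :=
    MeromorphicOn.circleIntegrable_log_norm fun z _ => (hA.analyticAt z).meromorphicAt
  have hanalytic : AnalyticOnNhd ℂ (fun z => q ⬝ᵥ Y z) Set.univ := fun z _ => hA.analyticAt z
  have hS : ∀ z₁, ∀ᶠ z in 𝓝[≠] z₁, z ∉ {z | q ⬝ᵥ Y z = 0} := by
    intro z₁
    rcases (hA.analyticAt z₁).eventually_eq_zero_or_eventually_ne_zero with h5 | h5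
    · exfalso
      obtain ⟨z, hz⟩ := hne
      apply hz
      have := hanalytic.eqOn_zero_of_preconnected_of_eventuallyEq_zero isPreconnected_univ
        (Set.mem_univ z₁) h5
      exact this (Set.mem_univ z)
    · exact h5
  have h6 := circleAverage_mono_ae hr0 hint3 (hint1.add hint2) hS (fun z _ hz => by
    have hHz : q ⬝ᵥ Y z ≠ 0 := hz
    have hYz : 0 < ‖Y z‖ := norm_pos_iff.2 (h0 _)
    calc Real.log ‖q ⬝ᵥ Y z‖ ≤ Real.log (‖Y z‖ * P) :=
          Real.log_le_log (norm_pos_iff.2 hHz) (hle z)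
      _ = Real.log ‖Y z‖ + Real.log P := by
          rw [Real.log_mul hYz.ne' hPpos.ne'])
  rw [Real.circleAverage_add hint1 hint2, Real.circleAverage_const] at h6
  exact h6

theorem count_compare {M N k : ℕ} (hk : 6 ≤ k) {p : Fin N → Fin (M + 1) → ℂ}
    {Y : ℂ → Fin (M + 1) → ℂ} (hY : Differentiable ℂ Y) (h0 : ∀ z, Y z ≠ 0)
    (hne : ∀ j, ∃ z, p j ⬝ᵥ Y z ≠ 0)
    (hord : ∀ z, k * {j | p j ⬝ᵥ Y z = 0}.ncard ≤
      (k - 6) * ∑ j, analyticOrderNatAt (fun z => p j ⬝ᵥ Y z) z) :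
    ∃ C : ℝ, ∀ r : ℝ, 1 ≤ r → k * ∑ j, count1 (fun z => p j ⬝ᵥ Y z) r ≤
      (k - 6 : ℝ) * N * height Y r + C := by
  classical
  have hA : ∀ j, Differentiable ℂ fun z => p j ⬝ᵥ Y z := by
    intro j
    have : Differentiable ℂ fun z => ∑ i, p j i * Y z i := by
      refine Differentiable.fun_sum fun i _ => Differentiable.const_mul ?_ _
      exact fun z => (differentiableAt_pi.1 (hY z)) i
    exact this
  choose C hC using fun j => c3a_average_le hY h0 (hA j) (hne j)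
  let c : Fin N → ℝ := fun j => Real.log ‖meromorphicTrailingCoeffAt (fun z => p j ⬝ᵥ Y z) 0‖
  refine ⟨(k - 6 : ℝ) * ∑ j, (C j - c j), fun r hr => ?_⟩
  have hk6 : (0 : ℝ) ≤ (k : ℝ) - 6 := by
    have : (6 : ℝ) ≤ k := by exact_mod_cast hk
    linarith
  let T : Fin N → Finset ℂ := fun j => (zeros_finite (hA j) (hne j) r).toFinset
  let Z : Finset ℂ := Finset.univ.biUnion T
  have hT : ∀ j u, u ∈ T j ↔ p j ⬝ᵥ Y u = 0 ∧ ‖u‖ ≤ r := by
    intro j u
    simp only [T]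
    rw [Set.Finite.mem_toFinset]
    constructor
    · rintro ⟨h1, h2⟩
      exact ⟨h1, mem_closedBall_zero_iff.1 h2⟩
    · rintro ⟨h1, h2⟩
      exact ⟨h1, mem_closedBall_zero_iff.2 h2⟩
  have hZr : ∀ u ∈ Z, ‖u‖ ≤ r := by
    intro u hu
    obtain ⟨j, _, hj⟩ := Finset.mem_biUnion.1 hu
    exact ((hT j u).1 hj).2
  have hTZ : ∀ j, T j ⊆ Z := fun j => Finset.subset_biUnion_of_mem T (Finset.mem_univ j)
  have hcount : ∀ j, count1 (fun z => p j ⬝ᵥ Y z) r =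
      ∑ u ∈ Z, if p j ⬝ᵥ Y u = 0 then c3a_L r u else 0 := by
    intro j
    rw [c3a_count1 (hA j) (hne j) hr, ← Finset.sum_filter]
    refine Finset.sum_congr ?_ fun _ _ => rfl
    ext u
    rw [Finset.mem_filter]
    constructor
    · intro hu
      exact ⟨hTZ j hu, ((hT j u).1 hu).1⟩
    · rintro ⟨h1, h2⟩
      exact (hT j u).2 ⟨h2, hZr u h1⟩
  have havg : ∀ j, Real.circleAverage (fun z => Real.log ‖p j ⬝ᵥ Y z‖) 0 r =
      ∑ u ∈ Z, (analyticOrderNatAt (fun z => p j ⬝ᵥ Y z) u : ℝ) * c3a_L r u + c j := by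
    intro j
    rw [e4_jensen (hA j) (hne j) hr]
    congr 1
    refine (Finset.sum_subset (hTZ j) fun u hu hu' => ?_)
    have h1 : p j ⬝ᵥ Y u ≠ 0 := fun h => hu' ((hT j u).2 ⟨h, hZr u hu⟩)
    have h2 : analyticOrderNatAt (fun z => p j ⬝ᵥ Y z) u = 0 := by
      by_contra h9
      exact h1 (apply_eq_zero_of_analyticOrderNatAt_ne_zero (f := fun z => p j ⬝ᵥ Y z) h9)
    rw [h2]
    simp
  have h1 : (k : ℝ) * ∑ j, count1 (fun z => p j ⬝ᵥ Y z) r =
      ∑ u ∈ Z, ((k * {j | p j ⬝ᵥ Y u = 0}.ncard : ℕ) : ℝ) * c3a_L r u := by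
    rw [Finset.sum_congr rfl fun j _ => hcount j, Finset.sum_comm, Finset.mul_sum]
    refine Finset.sum_congr rfl fun u _ => ?_
    rw [← Finset.sum_filter, Finset.sum_const, nsmul_eq_mul]
    have h3 : {j | p j ⬝ᵥ Y u = 0}.ncard = (Finset.univ.filter fun j => p j ⬝ᵥ Y u = 0).card := by
      rw [← Set.ncard_coe_finset]
      congr 1
      ext j
      simp
    rw [h3]
    push_cast
    ring
  have h2 : ∑ u ∈ Z, ((k * {j | p j ⬝ᵥ Y u = 0}.ncard : ℕ) : ℝ) * c3a_L r u ≤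
      ∑ u ∈ Z, (((k - 6) * ∑ j, analyticOrderNatAt (fun z => p j ⬝ᵥ Y z) u : ℕ) : ℝ) *
        c3a_L r u := by
    refine Finset.sum_le_sum fun u hu => ?_
    refine mul_le_mul_of_nonneg_right ?_ (c3a_L_nonneg hr (hZr u hu))
    exact_mod_cast hord u
  have h3 : ∑ u ∈ Z, (((k - 6) * ∑ j, analyticOrderNatAt (fun z => p j ⬝ᵥ Y z) u : ℕ) : ℝ) *
        c3a_L r u = (k - 6 : ℝ) * ∑ j, (Real.circleAverage (fun z => Real.log ‖p j ⬝ᵥ Y z‖) 0 r
          - c j) := by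
    have h4 : ∀ j, Real.circleAverage (fun z => Real.log ‖p j ⬝ᵥ Y z‖) 0 r - c j =
        ∑ u ∈ Z, (analyticOrderNatAt (fun z => p j ⬝ᵥ Y z) u : ℝ) * c3a_L r u := by
      intro j
      rw [havg j]
      ring
    rw [Finset.sum_congr rfl fun j _ => h4 j, Finset.sum_comm, Finset.mul_sum]
    refine Finset.sum_congr rfl fun u _ => ?_
    rw [← Finset.sum_mul, Nat.cast_mul, Nat.cast_sub hk, Nat.cast_sum]
    push_cast
    ring
  have h5 : ∑ j, (Real.circleAverage (fun z => Real.log ‖p j ⬝ᵥ Y z‖) 0 r - c j) ≤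
      ∑ j : Fin N, (height Y r + (C j - c j)) := by
    refine Finset.sum_le_sum fun j _ => ?_
    have := hC j r hr
    linarith
  have h6 : ∑ j : Fin N, (height Y r + (C j - c j)) = N * height Y r + ∑ j, (C j - c j) := by
    rw [Finset.sum_add_distrib, Finset.sum_const, Finset.card_univ, Fintype.card_fin,
      nsmul_eq_mul]
  calc (k : ℝ) * ∑ j, count1 (fun z => p j ⬝ᵥ Y z) r
      ≤ (k - 6 : ℝ) * ∑ j, (Real.circleAverage (fun z => Real.log ‖p j ⬝ᵥ Y z‖) 0 r - c j) := by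
        rw [h1, ← h3]; exact h2
    _ ≤ (k - 6 : ℝ) * ∑ j : Fin N, (height Y r + (C j - c j)) := mul_le_mul_of_nonneg_left h5 hk6
    _ = (k - 6 : ℝ) * N * height Y r + (k - 6 : ℝ) * ∑ j, (C j - c j) := by rw [h6]; ring

end Pool.Agent.Lib.GGL.SM
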