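import Mathlib
import Pool.Agent.Lib.MP_8d161d_ag.VG.G4
import Pool.Agent.Lib.MP_8d161d_ag.SM.Defs

/-!
Noetherian induction for the second main theorem: the easy steps.
-/

open Filter Topology MvPolynomial Module MeasureTheory

namespace Pool.Agent.Lib.GGL.SM

open VG

/-- The curve with reduced representation `Y` is constant. -/
def IsConst {M : ℕ} (Y : ℂ → Fin (M + 1) → ℂ) : Prop := ∀ z w, ∃ a : ℂ, Y z = a • Y w

/-- The second main theorem with truncation level one, for the curve `Y` and the hyperplanes `p`. -/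
def SMT {M N : ℕ} (k : ℕ) (p : Fin N → Fin (M + 1) → ℂ) (Y : ℂ → Fin (M + 1) → ℂ) : Prop :=
  ∃ (C : ℝ) (E : Set ℝ), volume E < ⊤ ∧ ∀ r, 1 ≤ r → r ∉ E →
    (1 - 5 / (k : ℝ)) * N * height Y r ≤
      (∑ j, open Classical in
        if ∃ z, p j ⬝ᵥ Y z ≠ 0 then count1 (fun z => p j ⬝ᵥ Y z) r else 0) +
        C * (Real.log r + Real.posLog (height Y r) + 1)

/-- The second main theorem holds for general hyperplanes and all curves whose jets are zeros of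
`𝔞`. -/
def SMTFor {M : ℕ} (k N : ℕ) (𝔞 : Ideal (MvPolynomial (Fin (M + 1) ⊕ Fin (M + 1)) ℂ)) : Prop :=
  ∃ Θ : MvPolynomial (Fin N × Fin (M + 1)) ℂ, Θ ≠ 0 ∧ ∀ p : Fin N → Fin (M + 1) → ℂ,
    eval (fun x : Fin N × Fin (M + 1) => p x.1 x.2) Θ ≠ 0 →
    ∀ Y : ℂ → Fin (M + 1) → ℂ, Differentiable ℂ Y → (∀ z, Y z ≠ 0) → ¬ IsConst Y →
      (∀ w ∈ jets fun _ => Y, ∀ G ∈ 𝔞, eval (Sum.elim w.1 w.2) G = 0) → SMT k p Y

theorem liftFamily_single {M : ℕ} {Y : ℂ → Fin (M + 1) → ℂ} (hY : Differentiable ℂ Y)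
    (h0 : ∀ z, Y z ≠ 0) : LiftFamily fun _ => Y := by
  refine ⟨fun z => hY.analyticAt z, h0, fun z₁ => Filter.Eventually.of_forall fun z => ?_⟩
  exact ⟨fun _ => 1, analyticAt_const, one_ne_zero, Filter.Eventually.of_forall fun w => by
    rw [one_smul]⟩

theorem smtFor_split {M k N : ℕ} {𝔞 : Ideal (MvPolynomial (Fin (M + 1) ⊕ Fin (M + 1)) ℂ)}
    {f g : MvPolynomial (Fin (M + 1) ⊕ Fin (M + 1)) ℂ} (hfg : f * g ∈ 𝔞)
    (h1 : SMTFor k N (𝔞 ⊔ Ideal.span {f})) (h2 : SMTFor k N (𝔞 ⊔ Ideal.span {g})) :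
    SMTFor k N 𝔞 := by
  obtain ⟨Θ₁, hΘ₁, h1⟩ := h1
  obtain ⟨Θ₂, hΘ₂, h2⟩ := h2
  refine ⟨Θ₁ * Θ₂, mul_ne_zero hΘ₁ hΘ₂, ?_⟩
  intro p hp Y hY h0 hnc hjets
  rw [map_mul] at hp
  rcases jets_irreducible (liftFamily_single hY h0) (f := f) (g := g)
    (fun w hw => hjets w hw _ hfg) with h | h
  · refine h1 p (left_ne_zero_of_mul hp) Y hY h0 hnc (fun w hw => zero_sup (hjets w hw) ?_)
    intro G hG
    rw [Set.mem_singleton_iff.mp hG]
    exact h w hw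
  · refine h2 p (right_ne_zero_of_mul hp) Y hY h0 hnc (fun w hw => zero_sup (hjets w hw) ?_)
    intro G hG
    rw [Set.mem_singleton_iff.mp hG]
    exact h w hw

theorem smtFor_of_minors {M k N : ℕ} {𝔞 : Ideal (MvPolynomial (Fin (M + 1) ⊕ Fin (M + 1)) ℂ)}
    (h : ∀ a b, minorP ℂ a b ∈ 𝔞) : SMTFor k N 𝔞 := by
  refine ⟨1, one_ne_zero, ?_⟩
  intro p hp Y hY h0 hnc hjets
  exfalso
  apply hnc
  intro z w
  obtain ⟨a, -, ha⟩ := (liftFamily_single hY h0).const (by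
    intro z₁ hz₁
    obtain ⟨a, b, hab⟩ := exists_minor hz₁
    apply hab
    have h1 := hjets (Y z₁, deriv Y z₁)
      ⟨z₁, 1, 1, 0, by rw [one_smul, one_smul, zero_smul, add_zero]⟩ _ (h a b)
    rw [← aeval_eq_eval', aeval_minorP] at h1
    exact h1) z w
  exact ⟨a, ha⟩

theorem smtFor_diff {M k N : ℕ} {𝔞 : Ideal (MvPolynomial (Fin (M + 1) ⊕ Fin (M + 1)) ℂ)}
    {f : MvPolynomial (Fin (M + 1)) ℂ} (hf : rename Sum.inl f ∈ 𝔞)
    (h1 : SMTFor k N (𝔞 ⊔ Ideal.span {diffP f})) : SMTFor k N 𝔞 := by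
  obtain ⟨Θ₁, hΘ₁, h1⟩ := h1
  refine ⟨Θ₁, hΘ₁, ?_⟩
  intro p hp Y hY h0 hnc hjets
  refine h1 p hp Y hY h0 hnc (fun w hw => zero_sup (hjets w hw) ?_)
  intro G hG
  rw [Set.mem_singleton_iff.mp hG, ← aeval_eq_eval', aeval_diffP]
  apply diff_on_jets (liftFamily_single hY h0) _ w hw
  intro w' hw'
  have h2 := hjets w' hw' _ hf
  rw [← aeval_eq_eval', aeval_rename, Sum.elim_comp_inl] at h2
  exact h2

end Pool.Agent.Lib.GGL.SM
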