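import Mathlib
import Pool.Agent.Lib.MP_8d161d_ag.Mg.G004
import Pool.Agent.Lib.MP_8d161d_ag.SM.Defs
import Pool.Agent.Lib.MP_8d161d_ag.Mg.G009

/-!
At most `n` of the general hyperplanes pass through a point of the variety.
-/

open Filter Topology MvPolynomial Module

namespace Pool.Agent.Lib.GGL.SM

open VG

theorem c1_scale_zero {M : ℕ} {I : Ideal (MvPolynomial (Fin (M + 1)) ℂ)}
    (hhom : ∀ g ∈ I, ∀ k, homogeneousComponent k g ∈ I) {y : Fin (M + 1) → ℂ}
    (hy : ∀ G ∈ I, eval y G = 0) (c : ℂ) : ∀ G ∈ I, eval (fun s => c * y s) G = 0 := by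
  classical
  intro G hG
  rw [← sum_homogeneousComponent G, map_sum]
  refine Finset.sum_eq_zero fun k _ => ?_
  have h1 : ∀ P : MvPolynomial (Fin (M + 1)) ℂ, P.IsHomogeneous k →
      eval (fun s => c * y s) P = c ^ k * eval y P := by
    intro P hP
    rw [eval_eq, eval_eq, Finset.mul_sum]
    refine Finset.sum_congr rfl fun m hm => ?_
    have h1 : ∑ s ∈ m.support, m s = k := by
      have := hP (mem_support_iff.1 hm)
      rw [← this, Finsupp.weight_apply, Finsupp.sum]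
      simp
    rw [Finset.prod_congr rfl fun s _ => mul_pow c (y s) (m s), Finset.prod_mul_distrib,
      Finset.prod_pow_eq_pow_sum, h1]
    ring
  rw [h1 _ (homogeneousComponent_isHomogeneous k G), hy _ (hhom G hG k), mul_zero]

theorem c1_chart {M n : ℕ} (I : Ideal (MvPolynomial (Fin (M + 1)) ℂ))
    (hhom : ∀ g ∈ I, ∀ k, homogeneousComponent k g ∈ I)
    (hI : Algebra.trdeg ℂ (MvPolynomial (Fin (M + 1)) ℂ ⧸ I) ≤ (n + 1 : ℕ)) (i : Fin (M + 1)) :
    ∃ Θ : MvPolynomial (Fin (n + 1) × Fin (M + 1)) ℂ, Θ ≠ 0 ∧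
      ∀ p : Fin (n + 1) → Fin (M + 1) → ℂ,
      eval (fun x : Fin (n + 1) × Fin (M + 1) => p x.1 x.2) Θ ≠ 0 →
      ∀ w : Fin (M + 1) → ℂ, w i = 1 → (∀ G ∈ I, eval w G = 0) → ∃ j, p j ⬝ᵥ w ≠ 0 := by
  classical
  let 𝔞 : Ideal (MvPolynomial (Fin (M + 1)) ℂ) := I ⊔ Ideal.span {X i - 1}
  let Λ : MvPolynomial ((Fin 1 × Fin (M + 1)) ⊕ Fin (M + 1)) ℂ :=
    ∑ a, X (Sum.inl (0, a)) * X (Sum.inr a)
  obtain ⟨Θ, hΘ, h⟩ := dim_count (M := M) (N := n + 1) (q := 1) (D := n) (by omega) 𝔞 (by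
    intro L _ _ w hw
    refine trdeg_affine I hhom hI w (i := i) ?_ (fun G hG => hw G (Ideal.mem_sup_left hG))
    have := hw (X i - 1) (Ideal.mem_sup_right (Ideal.subset_span rfl))
    rw [map_sub, aeval_X, map_one, sub_eq_zero] at this
    exact this) Λ
  refine ⟨Θ, hΘ, fun p hp w hwi hwI => ?_⟩
  by_contra hcon
  push Not at hcon
  have h1 : ∀ G ∈ 𝔞, eval w G = 0 := by
    have h2 : 𝔞 ≤ RingHom.ker (eval w) := by
      refine sup_le (fun G hG => hwI G hG) ?_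
      rw [Ideal.span_le, Set.singleton_subset_iff]
      show eval w (X i - 1) = 0
      rw [map_sub, eval_X, hwi, map_one, sub_self]
    intro G hG
    exact h2 hG
  have h3 := h p hp w h1 (by
    intro e
    simp only [Λ, map_sum, map_mul, eval_X, Sum.elim_inl, Sum.elim_inr]
    exact hcon (e 0)) (fun x => if x.2 = i then 1 else 0)
  simp only [Λ, map_sum, map_mul, eval_X, Sum.elim_inl, Sum.elim_inr, ite_mul, one_mul,
    zero_mul, Finset.sum_ite_eq', Finset.mem_univ, if_true, hwi] at h3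
  exact one_ne_zero h3

theorem card_through {M n N : ℕ} (I : Ideal (MvPolynomial (Fin (M + 1)) ℂ))
    (hhom : ∀ g ∈ I, ∀ k, homogeneousComponent k g ∈ I)
    (hI : Algebra.trdeg ℂ (MvPolynomial (Fin (M + 1)) ℂ ⧸ I) ≤ (n + 1 : ℕ)) :
    ∃ Θ : MvPolynomial (Fin N × Fin (M + 1)) ℂ, Θ ≠ 0 ∧ ∀ p : Fin N → Fin (M + 1) → ℂ,
      eval (fun x : Fin N × Fin (M + 1) => p x.1 x.2) Θ ≠ 0 →
      ∀ y : Fin (M + 1) → ℂ, y ≠ 0 → (∀ G ∈ I, eval y G = 0) → {j | p j ⬝ᵥ y = 0}.ncard ≤ n := by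
  classical
  choose Θ₀ hΘ₀ h₀ using fun i => c1_chart I hhom hI i
  refine ⟨∏ i, ∏ e : Fin (n + 1) ↪ Fin N,
    rename (fun x : Fin (n + 1) × Fin (M + 1) => (e x.1, x.2)) (Θ₀ i), ?_, ?_⟩
  · refine Finset.prod_ne_zero_iff.mpr fun i _ => Finset.prod_ne_zero_iff.mpr fun e _ => ?_
    intro h0
    apply hΘ₀ i
    have hinj : Function.Injective (fun x : Fin (n + 1) × Fin (M + 1) => (e x.1, x.2)) := by
      rintro ⟨x1, x2⟩ ⟨y1, y2⟩ h
      rw [Prod.mk.injEq] at h ⊢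
      exact ⟨e.injective h.1, h.2⟩
    exact rename_injective _ hinj (by rw [h0, map_zero])
  · intro p hp y hy0 hyI
    by_contra hcon
    push Not at hcon
    obtain ⟨i, hi⟩ : ∃ i, y i ≠ 0 := by
      by_contra h
      push Not at h
      exact hy0 (funext h)
    set S : Set (Fin N) := {j | p j ⬝ᵥ y = 0} with hS
    have hSfin : S.Finite := Set.toFinite S
    have hcard : n + 1 ≤ hSfin.toFinset.card := by
      rw [← Set.ncard_eq_toFinset_card S hSfin]
      omega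
    obtain ⟨e⟩ : Nonempty (Fin (n + 1) ↪ hSfin.toFinset) := by
      apply Function.Embedding.nonempty_of_card_le
      rw [Fintype.card_fin, Fintype.card_coe]
      exact hcard
    let e' : Fin (n + 1) ↪ Fin N := e.trans (Function.Embedding.subtype _)
    have he' : ∀ j, p (e' j) ⬝ᵥ y = 0 := by
      intro j
      have := (e j).2
      rw [Set.Finite.mem_toFinset] at this
      exact this
    rw [map_prod] at hp
    have hp1 := Finset.prod_ne_zero_iff.mp hp i (Finset.mem_univ i)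
    rw [map_prod] at hp1
    have hp2 := Finset.prod_ne_zero_iff.mp hp1 e' (Finset.mem_univ e')
    rw [eval_rename] at hp2
    obtain ⟨j, hj⟩ := h₀ i (fun j => p (e' j)) hp2 (fun s => (y i)⁻¹ * y s)
      (inv_mul_cancel₀ hi) (c1_scale_zero hhom hyI _)
    apply hj
    have h5 : (fun s => (y i)⁻¹ * y s) = (y i)⁻¹ • y := rfl
    rw [h5, dotProduct_smul, he' j, smul_zero]

end Pool.Agent.Lib.GGL.SM
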