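import Mathlib
import Pool.Agent.Lib.MP_8d161d_ag.Mg.G009
import Pool.Agent.Lib.MP_8d161d_ag.Mg.G041
import Pool.Agent.Lib.MP_8d161d_ag.Mg.G040
import Pool.Agent.Lib.MP_8d161d_ag.SM.C3a

/-!
Curves that are tangent to the hyperplanes.
-/

open Filter Topology MvPolynomial Module

namespace Pool.Agent.Lib.GGL.SM

lemma prop_of_minors {M : ℕ} {y y' : Fin (M + 1) → ℂ} (hy' : y' ≠ 0)
    (h : ∀ a b, y a * y' b = y b * y' a) : ∃ c : ℂ, y = c • y' := by
  obtain ⟨b, hb⟩ : ∃ b, y' b ≠ 0 := by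
    by_contra hcon
    push Not at hcon
    exact hy' (funext hcon)
  refine ⟨y b / y' b, ?_⟩
  funext a
  rw [Pi.smul_apply, smul_eq_mul, div_mul_eq_mul_div, eq_div_iff hb]
  exact h a b

lemma isConst_of_exp {M : ℕ} {Y : ℂ → Fin (M + 1) → ℂ} (hY : Differentiable ℂ Y)
    (h0 : ∀ z, Y z ≠ 0) (h : IsConst fun z => Y (Complex.exp z)) : IsConst Y := by
  have h1 : ∀ z a b, Y z a * Y 1 b = Y z b * Y 1 a := by
    intro z a b
    have hcont : Continuous fun z => Y z a * Y 1 b - Y z b * Y 1 a := by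
      have := hY.continuous
      fun_prop
    have h2 : (fun z => Y z a * Y 1 b - Y z b * Y 1 a) = fun _ => 0 :=
      Continuous.ext_on (s := {(0 : ℂ)}ᶜ) (dense_compl_singleton (0 : ℂ))
        hcont continuous_const (fun z hz => by
          obtain ⟨c, hc⟩ := h (Complex.log z) 0
          have hz' : z ≠ 0 := hz
          simp only [Complex.exp_log hz', Complex.exp_zero] at hc
          show Y z a * Y 1 b - Y z b * Y 1 a = 0
          rw [hc]
          simp only [Pi.smul_apply, smul_eq_mul]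
          ring)
    exact sub_eq_zero.mp (congrFun h2 z)
  intro z w
  obtain ⟨c, hc⟩ := prop_of_minors (h0 1) (h1 z)
  obtain ⟨d, hd⟩ := prop_of_minors (h0 1) (h1 w)
  have hd0 : d ≠ 0 := by
    rintro rfl
    apply h0 w
    rw [hd, zero_smul]
  refine ⟨c / d, ?_⟩
  rw [hc, hd, smul_smul, div_mul_cancel₀ _ hd0]

theorem curve_tangency {M N k : ℕ} (hk : 7 ≤ k) (hN : 1 ≤ N) {p : Fin N → Fin (M + 1) → ℂ}
    (Y : ℂ → Fin (M + 1) → ℂ) (hY : Differentiable ℂ Y) (h0 : ∀ z, Y z ≠ 0)
    (hnc : ¬ IsConst Y) (hne : ∀ j, ∃ z, p j ⬝ᵥ Y z ≠ 0)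
    (hord : ∀ z, k * {j | p j ⬝ᵥ Y z = 0}.ncard ≤
      (k - 6) * ∑ j, analyticOrderNatAt (fun z => p j ⬝ᵥ Y z) z)
    (hsmt : SMT k p (fun z => Y (Complex.exp z))) : False := by
  classical
  have hdot : ∀ j, Differentiable ℂ fun z => p j ⬝ᵥ Y z := by
    intro j
    unfold dotProduct
    exact Differentiable.fun_sum fun i _ => ((differentiable_pi.mp hY) i).const_mul _
  have hYe : Differentiable ℂ fun z => Y (Complex.exp z) := hY.comp Complex.differentiable_exp
  have hne' : ∀ j, ∃ z, p j ⬝ᵥ Y (Complex.exp z) ≠ 0 := by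
    intro j
    by_contra hcon
    push Not at hcon
    obtain ⟨z, hz⟩ := hne j
    apply hz
    have h2 : (fun z => p j ⬝ᵥ Y z) = fun _ => 0 :=
      Continuous.ext_on (s := {(0 : ℂ)}ᶜ) (dense_compl_singleton (0 : ℂ))
        (hdot j).continuous continuous_const (fun z hz => by
          have := hcon (Complex.log z)
          rwa [Complex.exp_log hz] at this)
    exact congrFun h2 z
  obtain ⟨C, E, hE, hsmt⟩ := hsmt
  obtain ⟨c, C₁, hc, hgrow⟩ := height_exp hY h0 hnc
  obtain ⟨C₂, hcomp⟩ := count_compare (k := k) (by omega) hYe (fun z => h0 _) hne' (by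
    intro z
    refine (hord (Complex.exp z)).trans (le_of_eq ?_)
    congr 1
    refine Finset.sum_congr rfl fun j _ => ?_
    unfold analyticOrderNatAt
    rw [← order_exp (hdot j) z])
  have hk0 : (0 : ℝ) < k := by
    have : 0 < k := by omega
    exact_mod_cast this
  have hN0 : (0 : ℝ) < N := by exact_mod_cast hN
  refine growth_contradiction (N := N) (C' := |C₂| + k * |C|) hc hN0 hgrow hE ?_
  intro r hr hrE
  have h1 := hsmt r hr hrE
  have h2 := hcomp r hr
  have hX : 0 ≤ Real.log r + Real.posLog (height (fun z => Y (Complex.exp z)) r) := 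
    add_nonneg (Real.log_nonneg hr) Real.posLog_nonneg
  rw [Finset.sum_congr rfl fun j _ => if_pos (hne' j)] at h1
  obtain ⟨T, hT⟩ : ∃ T, T = height (fun z => Y (Complex.exp z)) r := ⟨_, rfl⟩
  obtain ⟨P, hP⟩ : ∃ P, P = ∑ j, count1 (fun z => p j ⬝ᵥ Y (Complex.exp z)) r := ⟨_, rfl⟩
  rw [← hT] at h1 h2 hX ⊢
  rw [← hP] at h1 h2
  have h3 : (k : ℝ) * ((1 - 5 / (k : ℝ)) * N * T) = (k - 5) * N * T := by
    field_simp
  have h4 := mul_le_mul_of_nonneg_left h1 hk0.le
  rw [h3] at h4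
  have h5 : C * (Real.log r + Real.posLog T + 1) ≤ |C| * (Real.log r + Real.posLog T + 1) := by
    gcongr
    exact le_abs_self _
  have h6 : C₂ ≤ |C₂| * (Real.log r + Real.posLog T + 1) := by
    have := le_abs_self C₂
    have := abs_nonneg C₂
    nlinarith
  have h7 : (k : ℝ) * (C * (Real.log r + Real.posLog T + 1)) ≤
      k * (|C| * (Real.log r + Real.posLog T + 1)) := by gcongr
  calc (N : ℝ) * T = (k - 5) * N * T - (k - 6) * N * T := by ring
    _ ≤ k * (P + C * (Real.log r + Real.posLog T + 1)) - (k * P - C₂) := by linarith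
    _ ≤ (|C₂| + k * |C|) * (Real.log r + Real.posLog T + 1) := by
        have : (|C₂| + k * |C|) * (Real.log r + Real.posLog T + 1) =
          |C₂| * (Real.log r + Real.posLog T + 1) +
            k * (|C| * (Real.log r + Real.posLog T + 1)) := by ring
        rw [this]
        linarith

end Pool.Agent.Lib.GGL.SM
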