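import Mathlib
import Pool.Agent.Lib.MP_8d161d_ag.Defs
import Pool.Agent.Lib.MP_8d161d_ag.Mg.G016

/-!
Reduced representations of holomorphic curves.
-/

open Filter Topology

namespace Pool.Agent.Lib.GGL.SM

/-- the normalised representative -/
private noncomputable def w2_N {M : ℕ} (g : ℂ → PSpace M) (i₀ : Fin (M + 1)) (w : ℂ → ℂ) (z : ℂ) :
    Fin (M + 1) → ℂ := (w z / (g z).rep i₀) • (g z).rep

private theorem w2_rep {M : ℕ} (g : ℂ → PSpace M) {z : ℂ} {v : Fin (M + 1) → ℂ} (hv : v ≠ 0)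
    (h : g z = Projectivization.mk ℂ v hv) : ∃ a : ℂ, a ≠ 0 ∧ (g z).rep = a • v := by
  obtain ⟨a, ha⟩ := Projectivization.exists_smul_eq_mk_rep ℂ v hv
  refine ⟨(a : ℂ), a.ne_zero, ?_⟩
  rw [h, ← ha]
  rfl

private theorem w2_N_eq {M : ℕ} (g : ℂ → PSpace M) (i₀ : Fin (M + 1)) (w : ℂ → ℂ) {z : ℂ}
    {v : Fin (M + 1) → ℂ} (hv : v ≠ 0) (h : g z = Projectivization.mk ℂ v hv) :
    w2_N g i₀ w z = (w z / v i₀) • v := by
  obtain ⟨a, ha, hrep⟩ := w2_rep g hv h
  unfold w2_N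
  rw [hrep, smul_smul, Pi.smul_apply, smul_eq_mul]
  congr 1
  by_cases h0 : v i₀ = 0
  · simp [h0]
  · field_simp

/-- the coordinate of a curve does not vanish identically near any point -/
private theorem w2_coord {M : ℕ} {g : ℂ → PSpace M} (hg : ∀ z, HolomorphicNear g z)
    {i₀ : Fin (M + 1)} (h0 : (g 0).rep i₀ ≠ 0) (z₁ : ℂ) :
    ∀ᶠ z in 𝓝[≠] z₁, (g z).rep i₀ ≠ 0 := by
  -- dichotomy
  have hdich : ∀ z, (∀ᶠ z' in 𝓝 z, (g z').rep i₀ = 0) ∨ (∀ᶠ z' in 𝓝[≠] z, (g z').rep i₀ ≠ 0) := by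
    intro z
    obtain ⟨F, hF, hFg⟩ := hg z
    have hFi : AnalyticAt ℂ (fun z => F z i₀) z :=
      (ContinuousLinearMap.proj (R := ℂ) (φ := fun _ : Fin (M + 1) => ℂ) i₀).analyticAt _ |>.comp hF
    rcases hFi.eventually_eq_zero_or_eventually_ne_zero with h | h
    · left
      filter_upwards [h, hFg] with z' h1 h2
      obtain ⟨hv, h3⟩ := h2
      obtain ⟨a, ha, hrep⟩ := w2_rep g hv h3
      rw [hrep, Pi.smul_apply, h1, smul_zero]
    · right
      filter_upwards [h, hFg.filter_mono nhdsWithin_le_nhds] with z' h1 h2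
      obtain ⟨hv, h3⟩ := h2
      obtain ⟨a, ha, hrep⟩ := w2_rep g hv h3
      rw [hrep, Pi.smul_apply, smul_eq_mul]
      exact mul_ne_zero ha h1
  set S : Set ℂ := {z | ∀ᶠ z' in 𝓝 z, (g z').rep i₀ = 0} with hS
  have hSo : IsOpen S := isOpen_iff_mem_nhds.mpr fun z hz => by
    have := (eventually_eventually_nhds (p := fun z' => (g z').rep i₀ = 0)).mpr hz
    exact this
  have hSc : IsClosed S := by
    rw [← isOpen_compl_iff, isOpen_iff_mem_nhds]
    intro z hz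
    have h1 := (hdich z).resolve_left hz
    rw [eventually_nhdsWithin_iff] at h1
    filter_upwards [h1] with z' h2 h3
    by_cases hzz : z' = z
    · exact hz (hzz ▸ h3)
    · exact h2 hzz h3.self_of_nhds
  have hSe : S = ∅ := by
    rcases isClopen_iff.mp ⟨hSc, hSo⟩ with h | h
    · exact h
    · exfalso
      have h1 : (0 : ℂ) ∈ S := by rw [h]; trivial
      exact h0 (Filter.Eventually.self_of_nhds (p := fun z' => (g z').rep i₀ = 0) h1)
  refine (hdich z₁).resolve_left fun h => ?_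
  have h1 : z₁ ∈ S := h
  rw [hSe] at h1
  exact h1

theorem exists_reduced {M : ℕ} {g : ℂ → PSpace M} (hg : ∀ z, HolomorphicNear g z) :
    ∃ Y : ℂ → Fin (M + 1) → ℂ, Differentiable ℂ Y ∧
      ∀ z, ∃ h : Y z ≠ 0, g z = Projectivization.mk ℂ (Y z) h := by
  classical
  obtain ⟨i₀, h0⟩ : ∃ i₀, (g 0).rep i₀ ≠ 0 := by
    by_contra hcon
    push Not at hcon
    exact (g 0).rep_nonzero (funext hcon)
  choose F hF hFg using hg
  have hFz : ∀ z, ∃ h : F z z ≠ 0, g z = Projectivization.mk ℂ (F z z) h := fun z =>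
    (hFg z).self_of_nhds
  have hFi : ∀ z, AnalyticAt ℂ (fun z' => F z z' i₀) z := fun z =>
    (ContinuousLinearMap.proj (R := ℂ) (φ := fun _ : Fin (M + 1) => ℂ) i₀).analyticAt _ |>.comp
      (hF z)
  have hcoord := w2_coord (fun z => ⟨F z, hF z, hFg z⟩) h0
  -- the zeros are finite in discs
  set D : ℂ → ℕ := fun z => analyticOrderNatAt (fun z' => F z z' i₀) z with hD
  have hDne : ∀ z, analyticOrderAt (fun z' => F z z' i₀) z ≠ ⊤ := by
    intro z htop
    rw [analyticOrderAt_eq_top] at htop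
    have h1 := hcoord z
    have h2 : ∀ᶠ z' in 𝓝[≠] z, False := by
      filter_upwards [h1, htop.filter_mono nhdsWithin_le_nhds,
        (hFg z).filter_mono nhdsWithin_le_nhds] with z' h3 h4 h5
      obtain ⟨hv, h6⟩ := h5
      obtain ⟨a, ha, hrep⟩ := w2_rep g hv h6
      apply h3
      rw [hrep, Pi.smul_apply, h4, smul_zero]
    exact (h2.exists).elim fun _ h => h
  have hfin : ∀ t : ℝ, {z | D z ≠ 0 ∧ ‖z‖ ≤ t}.Finite := by
    intro t
    have hcov : ∀ z ∈ Metric.closedBall (0 : ℂ) t, {z' | z' ≠ z → (g z').rep i₀ ≠ 0} ∈ 𝓝 z := by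
      intro z _
      have h1 := hcoord z
      rw [eventually_nhdsWithin_iff] at h1
      exact h1
    obtain ⟨T, _, hT2⟩ := (isCompact_closedBall (0 : ℂ) t).elim_nhds_subcover _ hcov
    refine T.finite_toSet.subset ?_
    rintro z ⟨hz1, hz2⟩
    have h2 : z ∈ Metric.closedBall (0 : ℂ) t := by simpa using hz2
    obtain ⟨x, hxT, hx⟩ := Set.mem_iUnion₂.mp (hT2 h2)
    by_cases hzx : z = x
    · rw [hzx]
      exact hxT
    · exfalso
      have h3 : (g z).rep i₀ ≠ 0 := hx hzx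
      apply hz1
      have h4 : F z z i₀ ≠ 0 := by
        obtain ⟨hv, h5⟩ := hFz z
        obtain ⟨a, ha, hrep⟩ := w2_rep g hv h5
        intro h6
        apply h3
        rw [hrep, Pi.smul_apply, h6, smul_zero]
      have h5 := (hFi z).analyticOrderAt_eq_zero.mpr h4
      simp [hD, analyticOrderNatAt, h5]
  obtain ⟨w, hw, hwD⟩ := exists_entire hfin
  -- the local functions
  have hloc : ∀ z, ∃ H : ℂ → Fin (M + 1) → ℂ, AnalyticAt ℂ H z ∧
      (∃ h : H z ≠ 0, g z = Projectivization.mk ℂ (H z) h) ∧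
      ∀ᶠ z' in 𝓝[≠] z, H z' = w2_N g i₀ w z' := by
    intro z
    have hwz : analyticOrderAt w z = (D z : ℕ∞) := hwD z
    obtain ⟨w₁, hw₁, hw₁0, hw₁e⟩ :=
      ((hw.analyticAt z).analyticOrderAt_eq_natCast).mp hwz
    have hfz : analyticOrderAt (fun z' => F z z' i₀) z = (D z : ℕ∞) := by
      rw [hD]
      exact (ENat.natCast_toNat (hDne z)).symm
    obtain ⟨f₁, hf₁, hf₁0, hf₁e⟩ := ((hFi z).analyticOrderAt_eq_natCast).mp hfz
    refine ⟨fun z' => (w₁ z' / f₁ z') • F z z', (hw₁.div hf₁ hf₁0).smul (hF z), ?_, ?_⟩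
    · obtain ⟨hv, h1⟩ := hFz z
      have hc : w₁ z / f₁ z ≠ 0 := div_ne_zero hw₁0 hf₁0
      refine ⟨smul_ne_zero hc hv, ?_⟩
      rw [h1]
      refine (Projectivization.mk_eq_mk_iff' ℂ _ _ _ _).mpr ⟨(w₁ z / f₁ z)⁻¹, ?_⟩
      simp only
      rw [smul_smul, inv_mul_cancel₀ hc, one_smul]
    · filter_upwards [hw₁e.filter_mono nhdsWithin_le_nhds, hf₁e.filter_mono nhdsWithin_le_nhds,
        (hFg z).filter_mono nhdsWithin_le_nhds, self_mem_nhdsWithin] with z' h1 h2 h3 h4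
      obtain ⟨hv, h5⟩ := h3
      rw [w2_N_eq g i₀ w hv h5, h1, h2]
      congr 1
      have h6 : (z' - z) ^ D z ≠ 0 := pow_ne_zero _ (sub_ne_zero.mpr h4)
      rw [smul_eq_mul, smul_eq_mul, mul_div_mul_left _ _ h6]
  choose H hH1 hH2 hH3 using hloc
  refine ⟨fun z => H z z, ?_, hH2⟩
  intro z
  have heq : (fun z => H z z) =ᶠ[𝓝 z] H z := by
    have h1 : ∀ᶠ z' in 𝓝 z, AnalyticAt ℂ (H z) z' := (hH1 z).eventually_analyticAt
    have h2 : ∀ᶠ z' in 𝓝[≠] z, ∀ᶠ z'' in 𝓝 z', H z z'' = w2_N g i₀ w z'' := by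
      have h3 := eventually_eventually_nhdsWithin.mpr (hH3 z)
      filter_upwards [h3, self_mem_nhdsWithin] with z' h4 h5
      rwa [IsOpen.nhdsWithin_eq isOpen_compl_singleton h5] at h4
    rw [eventually_nhdsWithin_iff] at h2
    filter_upwards [h1, h2] with z' h3 h4
    by_cases hzz : z' = z
    · rw [hzz]
    · have h5 := h4 hzz
      have h6 : H z' =ᶠ[𝓝[≠] z'] H z := by
        filter_upwards [hH3 z', h5.filter_mono nhdsWithin_le_nhds] with z'' h7 h8
        rw [h7, h8]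
      have h7 : Tendsto (H z') (𝓝[≠] z') (𝓝 (H z' z')) :=
        (hH1 z').continuousAt.tendsto.mono_left nhdsWithin_le_nhds
      have h8 : Tendsto (H z') (𝓝[≠] z') (𝓝 (H z z')) :=
        (h3.continuousAt.tendsto.mono_left nhdsWithin_le_nhds).congr' h6.symm
      exact tendsto_nhds_unique h7 h8
  exact ((hH1 z).congr heq.symm).differentiableAt

end Pool.Agent.Lib.GGL.SM
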